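import Pool.Agent.Run7.h43.SD.RelTame

/-!
# Self-dual equivariant Chow–Künneth decompositions from generation outside the middle degree

This is the equivariant form of `MP_524776_ag.GeneratedOutsideTheMiddle`; the author of the theorem
and of its proof is helper43.

Let `W` be a Weil cohomology theory over a field of any characteristic (no Lefschetz theorem is
assumed), and let `𝒳` and `𝒳'` be two classes of smooth projective varieties such that

* the Chow motives of the varieties in `𝒳` are tame (the ideal of the numerically trivial
  self-correspondences is nilpotent; this holds for all motives which are finite-dimensional in the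
  sense of Kimura) and their Künneth components are algebraic;
* numerically trivial cycles on `X × X'` are homologically trivial for `X` in `𝒳` and `X'` in `𝒳'`.

Let `Y` be ANY smooth projective variety, of dimension `d`, such that for all `j > d` the space
`H^j(Y)` is contained in the span of the images of correspondences from the varieties in `𝒳`, and
`H^(2d-j)(Y)` in the span of the images of correspondences from those in `𝒳'`. Then for every finite
group `G` of isometries of the motive of `Y`, for example of automorphisms of `Y`, there is a
SELF-DUAL Chow–Künneth decomposition of `Y` which commutes with `G` and whose summands outside the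
middle degree are tame. Nothing is assumed about the middle cohomology, the Künneth components or
the motive of `Y`, and the classes `𝒳`, `𝒳'` and the generating correspondences need not be stable
under `G` or under duality.

Cases. (1) `𝒳 = 𝒳'` the class of abelian varieties, or of products of curves, in characteristic
zero: all hypotheses on `𝒳` are theorems (Shermenev, Kimura, Kleiman, Lieberman). (2) `𝒳' = {Y}`:
for example `X` a smooth hyperplane section of `Y` which is finite-dimensional and satisfies the
Künneth conjecture, with hom = num on `X × Y`.

The proof: by the theorem of `MP_a60482_ag.RelativeKunneth` (trace forms on correspondences through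
`𝒳` and `𝒳'`) the Künneth projectors for `j > d` are induced by cycles in the ideal of the
correspondences which factor through `𝒳`. These are correspondences through tame motives, and the
theorem of `MP_8a7054_ag.TameOutsideTheMiddle` (spectral projectors of an antisymmetric element of
this ideal which commutes with `G`) applies.
-/

open CategoryTheory Pool.Agent.H914 Pool.Agent.R903 Pool.Agent.Run7.h192.Murre

universe u v w

namespace Pool.Agent.Results.MP_8a7054_ag.GeneratedOutsideTheMiddle

open Run7.h43.SD

/-- **Self-dual equivariant Chow–Künneth decompositions from generation outside the middle.** -/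
theorem result {k : Type u} [Field k] {𝒱 : VarClass k} {C : ChowTheory.{u, v} 𝒱}
    (W : WeilTheory.{u, v, w} C) (𝒳 𝒳' : Set 𝒱.Obj)
    (hT : ∀ X ∈ 𝒳, IsTame C X (C.diagC X))
    (hC : ∀ X ∈ 𝒳, ∀ i ≤ 2 * X.dim, KunnethAlg W X i)
    (hD : ∀ X ∈ 𝒳, ∀ X' ∈ 𝒳', HomEqNum W X X') (Y : 𝒱.Obj)
    (h : ∀ j, Y.dim < j → j ≤ 2 * Y.dim → GenBy W 𝒳 Y j ∧ GenBy W 𝒳' Y (2 * Y.dim - j))
    (G : Type) [Group G] [Finite G] (g : G → C.CH (Y.prod Y)) (hg : IsIsometryGroup C Y g) :
    ∃ π : ℕ → C.CH (Y.prod Y), IsTameCK W Y π ∧ SelfDual C π ∧ ∀ j, Invariant C g (π j) :=
  exists_tame (halfTame_of_generated hT hC hD h) hg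

end Pool.Agent.Results.MP_8a7054_ag.GeneratedOutsideTheMiddle
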