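import Pool.Agent.Run7.h192.Murre.Desc
import Pool.Agent.Run7.h192.Murre.Iso

/-!
# Self-dual Chow–Künneth decompositions from one triangular decomposition

Let `𝒱` be a class of smooth projective varieties over a field `k` which is closed under products
(for example all of them), with Chow groups `C` (rational coefficients) and a Weil cohomology theory
`W`. A Chow–Künneth decomposition `π` is triangular if `π b ∘ γ ∘ π a = 0` for all `a < b` and all
correspondences `γ` of degree zero (`Hom(h^a(X), h^b(X)) = 0` for `a < b`).

1. If `X` has a triangular Chow–Künneth decomposition, then it has a self-dual triangular one, and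
   for each finite group of isometries of the motive of `X` there is such a decomposition which
   commutes with the group. This applies to the finite groups of automorphisms of `X`.
2. If moreover the only idempotent in `CH^(dim X)(X × X)` which acts as zero on cohomology is `0`,
   then the self-dual decomposition is unique up to isometries which act as the identity on
   cohomology (and commute with the group, for invariant decompositions).
3. If `X` has a Chow–Künneth decomposition and `F^0 CH^(dim X)(X × X)` is independent of the
   decomposition of `X × X`, then `X` has a self-dual Chow–Künneth decomposition which is invariant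
   under any given finite group. In particular, if all varieties have Chow–Künneth decompositions,
   and if the filtrations are independent of the decomposition, then all varieties have self-dual
   decompositions.
-/

open CategoryTheory Pool.Agent.H914 Pool.Agent.R903 Pool.Agent.Run7.h192.Murre

universe u v w

namespace Pool.Agent.Results.MP_8a7054_ag.SelfDualInvariant

theorem result {k : Type u} [Field k] {𝒱 : VarClass k} {C : ChowTheory.{u, v} 𝒱}
    (W : WeilTheory.{u, v, w} C) :
    (∀ (X : 𝒱.Obj) (G : Type) [Group G] [Finite G] (g : G → C.CH (X.prod X)),
      IsIsometryGroup C X g → ∀ ρ : ℕ → C.CH (X.prod X), W.IsCK X ρ →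
        C.IsTriangular ρ ∨ (C.Polarized ∧ W.Indep (X.prod X) X.dim 0) →
          ∃ π, IsInvariantSelfDual W g π) ∧
    (∀ (X : 𝒱.Obj) (G : Type) [Group G] (f : G → (X ⟶ X)), f 1 = 𝟙 X →
      (∀ a b, f (a * b) = f a ≫ f b) → IsIsometryGroup C X fun a => graphClass C (f a)) ∧
    ∀ X : 𝒱.Obj, W.NoPhantoms X → ∀ ρ π π' : ℕ → C.CH (X.prod X), W.IsCK X ρ →
      C.IsTriangular ρ → W.IsCK X π → SelfDual C π → W.IsCK X π' → SelfDual C π' →
        Isometric W π π' := by
  refine ⟨fun X G _ _ g hg ρ hρ h => ?_,
    fun X G _ f h1 hmul => isIsometryGroup_of_action f h1 hmul,
    fun X hN ρ π π' hρ hT h hS h' hS' => isometric_of_selfDual hN h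
      (fun a b hab γ hγ => triangular_of_one hN hρ hT π π h h a b hab γ hγ) hS h' hS'⟩
  haveI := Fintype.ofFinite G
  have hT : C.IsTriangular ρ := by
    rcases h with hT | ⟨hP, hI⟩
    · exact hT
    · exact triangular_of_indep hP hI hρ
  exact exists_selfDual hg fun j _ => splitting_of_triangular hρ hT j

end Pool.Agent.Results.MP_8a7054_ag.SelfDualInvariant
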