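import Pool.Agent.Run7.h634.Mur.SF3

/-!
# Self-dual Chow-Kunneth decompositions: surfaces and ideals of finite-dimensional correspondences
-/

set_option autoImplicit false

open CategoryTheory AlgebraicGeometry

universe u v w

namespace Pool.Agent.Results.MP_8a7054_ag.SurfacesFiniteSelfDual

open Pool.Agent.H914 Pool.Agent.H914.VarClass Pool.Agent.H914.VarClass.Obj Pool.Agent.W492.BB
  Pool.Agent.W550.Corr Pool.Agent.TH133 Pool.Agent.X308.S Pool.Agent.Run7.H634.Mur

variable {k : Type u} [Field k] {𝒱 : VarClass k} {C : TheoryData.{u, v, 0} 𝒱 ℚ}
  [hC : IsChowProj C] {K : Type w} [Field K]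
  {H : WeilTheoryData.{u, v, w} C K} [hH : IsWeilProj H]

/-- Let `J` be a two-sided ideal of the self-correspondences of `X`, stable under transposition,
whose elements are algebraic over `ℚ`, are nilpotent if they are homologically trivial, and have
their Kunneth components in `J`. If the diagonal of `X` is the sum of a correspondence which factors
through twists of motives of surfaces and of an element of `J`, then `X` has a self-dual
Chow-Kunneth decomposition. -/
theorem result (hS : SurfaceProperties H) (X : 𝒱.Obj) (J : CorSub C X)
    (hJ : IsFinIdeal H J) (hX : IsMixed J) :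
    ∃ π : ℕ → C.A (X.prod X), IsCK H X π ∧ IsSelfDual C π :=
  selfDual_mixed hS hJ hX

end Pool.Agent.Results.MP_8a7054_ag.SurfacesFiniteSelfDual
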