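import Pool.Agent.Run7.h43.SD.Uniq

/-!
# Self-dual Chow–Künneth decompositions whose summands outside the middle are tame

Let `𝒱` be a class of smooth projective varieties over a field `k` which is closed under products
(for example all of them), with Chow groups `C` (rational coefficients) and a Weil cohomology theory
`W`. A Chow motive `(Z, p)` is tame (`IsTame`) if the ideal of its numerically trivial endomorphisms
is nilpotent. Motives which are finite-dimensional in the sense of Kimura and O'Sullivan are tame,
for example the motives of curves, of abelian varieties and of all varieties dominated by products of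
curves. The tame ideal `tameIdeal C X` of `CH^(dim X)(X × X)` consists of the correspondences which
factor through finite direct sums of twists of tame Chow motives of arbitrary varieties.

1. Let `d = dim X`. The following are equivalent.
   (i) `X` has a Chow–Künneth decomposition `ρ` such that for each `j < d` the motive `(X, ρ j)` or
   the motive `(X, ρ (2d - j))` is tame.
   (ii) For each `j < d` there is a correspondence in the tame ideal which acts on the cohomology of
   `X` as the projector to `H^j(X)` or as the projector to `H^(2d-j)(X)`.
   (iii) For each finite group `G` of isometries of the motive of `X` (for example of automorphisms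
   of `X`) there is a self-dual Chow–Künneth decomposition `π` of `X` which commutes with `G` and
   for which all `(X, π j)`, `j ≠ d`, are tame.
2. Any two Chow–Künneth decompositions of `X` whose summands outside the middle are tame are
   conjugate by a correspondence which acts as the identity on cohomology, and if they are self-dual
   then they are isometric.

There is no condition on the middle summand `h^d(X)`, which can be as complicated as that of an
arbitrary variety, and no condition on phantoms or on the groups `Hom(h^a(X), h^b(X))`.

The proof. Let `E` be the ring of correspondences of degree zero of `X`, `I` the ideal of the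
numerically trivial ones; `E / I` has finite dimension over `ℚ`. If `c` is the ideal of the
correspondences through one tame motive, then `c I` is nilpotent; so `c I` is nilpotent also for a
finite sum `c` of such ideals. Therefore the elements of the tame ideal are algebraic over `ℚ`. By
(ii), by transposition and by averaging over `G` the tame ideal contains an element `z` which acts on
`H^l(X)` as `l - d`, which commutes with `G` and is equal to the negative of its transpose. The
spectral projectors of `z` for the eigenvalues `j - d` are the `π j`, `j ≠ d`: as the transposition
maps `z` to `-z`, it exchanges the projectors for `j - d` and for `d - j`. For part 2 one shows that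
`∑ π' j ∘ π j` is the sum of the identity and of a nilpotent element of the tame ideal, and uses an
inverse square root of a symmetric unipotent element.
-/

open CategoryTheory Pool.Agent.H914 Pool.Agent.R903 Pool.Agent.Run7.h192.Murre

universe u v w

namespace Pool.Agent.Results.MP_8a7054_ag.TameOutsideTheMiddle

open Run7.h43.SD

theorem result {k : Type u} [Field k] {𝒱 : VarClass k} {C : ChowTheory.{u, v} 𝒱}
    (W : WeilTheory.{u, v, w} C) (X : 𝒱.Obj) :
    List.TFAE [
      ∃ ρ : ℕ → C.CH (X.prod X), W.IsCK X ρ ∧
        ∀ j < X.dim, IsTame C X (ρ j) ∨ IsTame C X (ρ (2 * X.dim - j)),
      ∀ j < X.dim, ∃ ε ∈ tameIdeal C X,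
        IsProjector (W.gr X) j (W.act ε) ∨ IsProjector (W.gr X) (2 * X.dim - j) (W.act ε),
      ∀ (G : Type) [Group G] [Finite G] (g : G → C.CH (X.prod X)), IsIsometryGroup C X g →
        ∃ π : ℕ → C.CH (X.prod X), IsTameCK W X π ∧ SelfDual C π ∧ ∀ j, Invariant C g (π j)] ∧
    ∀ π π' : ℕ → C.CH (X.prod X), IsTameCK W X π → IsTameCK W X π' →
      (∃ φ ψ, IsDegreeZero C φ ∧ IsInverse C φ ψ ∧ IsIdMap (W.act φ) ∧
        ∀ j, C.comp (π j) φ = C.comp φ (π' j)) ∧
      (SelfDual C π → SelfDual C π' → Isometric W π π') := by
  refine ⟨?_, fun π π' h h' => ⟨conj_of_tame h h', isometric_of_tame h h'⟩⟩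
  tfae_have 1 → 2 := fun ⟨ρ, h, ht⟩ => halfTame_of_ck h ht
  tfae_have 2 → 3 := fun h G _ _ g hg => exists_tame h hg
  tfae_have 3 → 1 := by
    intro h
    obtain ⟨π, h1, -, -⟩ := h Unit (fun _ => C.diagC X)
      ⟨fun _ => C.diagC_mem X, rfl, fun _ _ => C.comp_diagC _, fun _ => C.transp_diagC X⟩
    exact ⟨π, h1.1, fun j hj => Or.inl (h1.2 j (by omega))⟩
  tfae_finish

end Pool.Agent.Results.MP_8a7054_ag.TameOutsideTheMiddle
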